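import Pool.Agent.Lib.K5F.Mass
import Pool.Agent.Lib.FI.B_SYL
import Pool.Agent.Lib.FI.B_FS
import Pool.Agent.Lib.FI.B_CHR
import Pool.Agent.Lib.SIE.Defs

/-! Project k5f: the lower bound of the determinant at a point of maximal rank. -/

open scoped Classical Topology ContDiff ComplexOrder Matrix ENNReal
open Set MeasureTheory Complex Metric Filter

set_option linter.unusedVariables false

noncomputable section

namespace Pool.Agent.Lib.K5F

open Pool.Agent.Lib.SV (E nsq)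
open Pool.Agent.Lib.HS32 Pool.Agent.Lib.HS32.Mf Pool.Agent.Lib.KH

/-- The matrix inequality. -/
theorem det_low {n d : ℕ} {A : Mat n} {B : Mat d} {P : Matrix (Fin d) (Fin n) ℂ} (hA : A.PosDef)
    (hB : B.PosDef) (hP : Function.Surjective P.mulVec) : ∃ j > (0 : ℝ), ∀ s > (0 : ℝ),
      j * s ^ (n - d) ≤ ((Pᴴ * B * P + s • A).det / A.det).re := by
  have hd : d ≤ n := by
    simpa using LinearMap.finrank_le_finrank_of_surjective (f := P.mulVecLin) hP
  have hi : Function.Injective P.vecMul := fun a b h => dotProduct_eq _ _ fun u => by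
    obtain ⟨v, rfl⟩ := hP u
    rw [Matrix.dotProduct_mulVec, Matrix.dotProduct_mulVec]
    exact congrArg (· ⬝ᵥ v) h
  have hQ := hA.inv.mul_mul_conjTranspose_same hi
  refine ⟨B.det.re * (P * A⁻¹ * Pᴴ).det.re, mul_pos (pd_det_re hB) (pd_det_re hQ), fun s hs => ?_⟩
  have e1 := (FI.bSYL n d A P B 0 s hd (pd_det_ne hA)).1
  have e2 : (s : ℂ) • (1 : Mat d) + B * (P * A⁻¹ * Pᴴ) = B * (s • B⁻¹ + P * A⁻¹ * Pᴴ) := by
    rw [mul_add, Matrix.mul_smul, Matrix.mul_nonsing_inv _ (pd_det_ne hB).isUnit]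
    rfl
  have e3 : (P * A⁻¹ * Pᴴ).det.re ≤ (s • B⁻¹ + P * A⁻¹ * Pᴴ).det.re :=
    HS76.det_mono hQ (by rw [add_sub_cancel_right]; exact psd_rsmul hB.inv.posSemidef hs.le)
  rw [add_comm, show s • A = (s : ℂ) • A from rfl, e1, e2, Matrix.det_mul,
    mul_right_comm _ A.det, mul_div_cancel_right₀ _ (pd_det_ne hA), ← ofReal_pow, re_ofReal_mul,
    mul_comm, ← herm_det hB.1, re_ofReal_mul, ofReal_re]
  exact mul_le_mul_of_nonneg_left (mul_le_mul_of_nonneg_left e3 (pd_det_re hB).le)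
    (pow_pos hs _).le

theorem det {n d : ℕ} {M : Mf n} {H : M.Fam (Mat n)} {O : Set M.X} {w : Fin d → M.X → ℂ} {x : M.X}
    (hH : M.Met H) (hx : x ∈ O) (hw : ∀ i, HoK M O (w i)) (hr : SIE.Rk M w x) :
    ∃ j > (0 : ℝ), ∀ s ∈ Ioc (0 : ℝ) 1, j * s ^ (n - d) ≤ M.dq H (M.hs (fun y =>
      Real.log (sn (fun o : Option (Fin d) => o.elim (fun _ => 1) w) y)) + s • H) x := by
  obtain ⟨h1, h2⟩ := hr _ (ch_mem x) (mem_ch x)
  obtain ⟨f1, f2, -⟩ := FI.bFS d 1 0 (SIE.rd M w (M.ch x) (M.ch x x)) one_pos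
  obtain ⟨j, j0, hj⟩ := det_low (P := FI.jr (SIE.rd M w (M.ch x)) (M.ch x x)) (hH.ev_pos x) f2
    fun u => (h2 u).imp fun v hv => (FI.CHR.fd _ _ v).symm.trans hv
  refine ⟨j, j0, fun s hs => (hj s hs.1).trans_eq ?_⟩
  have e := (FI.bCHR n d _ _ h1).2.2.2.2.2 (fun y => (Real.log (1 + nsq (y - 0)) : ℝ))
    (ofRealCLM.contDiff.contDiffAt.comp _ f1)
  have e' : M.lc (fun y => Real.log (sn (fun o : Option (Fin d) => o.elim (fun _ => 1) w) y))
      (M.ch x) = (fun y => ((Real.log (1 + nsq (y - 0)) : ℝ) : ℂ)) ∘ SIE.rd M w (M.ch x) := by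
    funext z
    simp [lc, sn, nsq, SIE.rd, Fintype.sum_option]
  rw [FI.hr, ← e, ← e']
  rfl

end Pool.Agent.Lib.K5F
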