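import Pool.Agent.Lib.K5F.Mass

/-! Project k5f: the limit potential is a function of the holomorphic quotients. -/

open scoped Classical Topology ContDiff ComplexOrder Matrix ENNReal
open Set MeasureTheory Complex Metric Filter

noncomputable section

namespace Pool.Agent.Lib.K5F

open Pool.Agent.Lib.SV (E)
open Pool.Agent.Lib.HS32 Pool.Agent.Lib.HS32.Mf Pool.Agent.Lib.KH Pool.Agent.Lib.KH.MAX
  Pool.Agent.Lib.KB47

namespace Dt

variable {n : ℕ} {M : Mf n} {ι : Type} [Fintype ι] (D : Dt M ι) (m i : ℕ)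

/-- The potential of `T`. -/
def u (x : M.X) : ℝ := D.l x + -1 * Real.log (D.S x)

/-- The weight. -/
def ph (x : M.X) : ℝ := D.f x + (D.W (D.a i) x + D.u x) + m * (D.W (D.b i) x + D.u x)

/-- The majorant of the weight. -/
def hi (s : ℝ) (x : M.X) : ℝ :=
  D.f x + (Real.log (D.S x + 1) + D.u x) + m * (Real.log (D.S x + s) + D.u x)

/-- The density. -/
def la (x : M.X) : ℝ := Real.exp (-(D.f x + (Real.log (D.S x + 1) + D.u x)))

/-- The limit of the quotients. -/
def ql (x : M.X) : ℝ := D.L x / (D.S x + D.L x)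

variable {m} in
/-- The monomials. -/
def mo (I : Fin m → ι) (x : M.X) : ℂ := ∏ k, D.w (I k) x

variable {m} in
theorem hmo (I : Fin m → ι) : HoK M D.O (D.mo I) := fun e he z hz ho =>
  (eventually_all.2 fun k => D.hw (I k) e he z hz ho).mono fun _ h =>
    (HasFDerivAt.finsetProd (u := Finset.univ) fun k _ => (h k).hasFDerivAt).differentiableAt

theorem smo (x : M.X) : ∑ I : Fin m → ι, normSq (D.mo I x) = sn D.w x ^ m := by
  simp only [sn, mo, map_prod, Fintype.sum_pow]

theorem su : OnK M D.O fun e z => ContDiffAt ℝ ∞ (fun y => D.u (e.symm y)) z ∧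
    ∀ v, lw (fun y => D.u (e.symm y)) z v = nq (D.T e z) v := fun e he z hz ho => by
  have h1 := (D.psl e he z hz ho).1
  have h2 : ContDiffAt ℝ ∞ (fun y => Real.log (D.S (e.symm y))) z :=
    (D.sS e he z hz).log (D.pos _ ho).1.ne'
  refine ⟨h1.add (contDiffAt_const.mul h2), fun v => ?_⟩
  have h3 := congrArg (nq · v) (D.al e he z hz ho)
  simp only [q_add] at h3
  have h4 := lw_add h1 (contDiffAt_const.mul h2 (f := fun _ => (-1 : ℝ))) v
  rw [mul_rule _ h2] at h4
  refine h4.trans ?_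
  change lw (fun y => Real.log (D.S (e.symm y))) z v + _ = lw (fun y => D.l (e.symm y)) z v at h3
  linarith

theorem ex {x : M.X} (hx : x ∈ D.O) : Real.exp (-(m * D.l x)) = (sn D.w x ^ m)⁻¹ := by
  rw [Real.exp_neg, Real.exp_nat_mul, l, Real.exp_log (one_pos.trans_le (D.pos x hx).2)]

theorem up {x : M.X} (hx : x ∈ D.O) :
    Real.exp (-D.ph m i x) ≤ (sn D.w x ^ m)⁻¹ * Real.exp (-D.f x) := by
  have k (a : M.X → ℝ) : D.l x ≤ D.W a x + D.u x := by
    have := Real.log_le_log (D.pos x hx).1 (le_add_of_nonneg_right (Real.exp_pos (a x)).le)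
    unfold W u
    linarith
  have h1 : 0 ≤ D.l x := Real.log_nonneg (D.pos x hx).2
  rw [← D.ex m hx, ← Real.exp_add, Real.exp_le_exp, ph]
  linarith [k (D.a i), mul_le_mul_of_nonneg_left (k (D.b i)) m.cast_nonneg]

theorem lo {s : ℝ} (h : D.ε i ≤ s) (x : M.X) : D.ph m i x ≤ D.hi m s x :=
  add_le_add (add_le_add le_rfl (add_le_add (Real.log_le_log (D.den x) (add_le_add le_rfl
    (Real.exp_le_one_iff.2 ((D.sa i).2.1 x)))) le_rfl)) (mul_le_mul_of_nonneg_left
      (add_le_add (Real.log_le_log (D.den x) (add_le_add le_rfl ((D.eb i x).trans h))) le_rfl)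
      m.cast_nonneg)

theorem ld {x : M.X} (hx : x ∈ D.O) :
    ENNReal.ofReal ((sn D.w x ^ m)⁻¹ * D.la x) ≤ lden (D.ph m) x := by
  have h1 : ContinuousAt (fun s => Real.exp (-D.hi m s x)) 0 := by
    have : D.S x + 0 ≠ 0 := by rw [add_zero]; exact (D.pos x hx).1.ne'
    unfold hi
    fun_prop (disch := assumption)
  have h2 : Real.exp (-D.hi m 0 x) = (sn D.w x ^ m)⁻¹ * D.la x := by
    rw [← D.ex m hx, la, ← Real.exp_add, hi, add_zero, u]
    exact congrArg _ (by ring)
  rw [← h2]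
  exact (ENNReal.tendsto_ofReal (h1.tendsto.comp D.el)).liminf_eq.ge.trans (liminf_le_liminf
    (.of_forall fun i => ENNReal.ofReal_le_ofReal
      (Real.exp_le_exp.2 (neg_le_neg (D.lo m i le_rfl x)))))

theorem L0 {x : M.X} (hx : x ∈ D.O) : 0 ≤ D.L x :=
  ge_of_tendsto' (D.lim x hx) fun _ => (Real.exp_pos _).le

theorem qlim {x : M.X} (hx : x ∈ D.O) : Tendsto (fun i => D.q (D.a i) x) atTop (𝓝 (D.ql x)) :=
  (D.lim x hx).div ((D.lim x hx).const_add _)
    (add_pos_of_pos_of_nonneg (D.pos x hx).1 (D.L0 hx)).ne'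

variable [M.Cpt]

theorem co {F : Type} [NormedAddCommGroup F] [NormedSpace ℝ F] {g : M.X → F} (h : SmK M D.O g) :
    ContinuousOn g D.O := ((bKIT n M D.H D.O D.kae.toMet D.cmp.1).1 F g h).1

theorem ch {g : M.X → ℂ} (h : HoK M D.O g) : ContinuousOn g D.O :=
  D.co ((bKIT n M D.H D.O D.kae.toMet D.cmp.1).2.1 g h)

theorem cu : ContinuousOn D.u D.O := D.co fun e he z hz ho => (D.su e he z hz ho).1

theorem lb : Lb M D.O (D.ph m) := fun x hx => by
  obtain ⟨s, hs⟩ := D.el.bddAbove_range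
  have s0 := (D.e0 0).trans_le (hs ⟨0, rfl⟩)
  have c (r : ℝ) (h : 0 < r) : ContinuousOn (fun x => Real.log (D.S x + r) + D.u x) D.O :=
    ((D.sS.continuous.add continuous_const).log fun y =>
      (add_pos_of_nonneg_of_pos (D.S0 y) h).ne').continuousOn.add D.cu
  have h : ContinuousOn (D.hi m s) D.O :=
    ((D.co D.sf).add (c 1 one_pos)).add (continuousOn_const.mul (c s s0))
  exact ⟨_, ((h.continuousAt (D.cmp.1.mem_nhds hx)).eventually_le_const (lt_add_one _)).mono
    fun y hy i => (D.lo m i (hs ⟨i, rfl⟩) y).trans hy⟩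

variable {m}

theorem dat (m0 : 0 < m) (I : Fin m → ι) : Dat M D.H D.O ((1 + 2 * m) * D.ε i) (D.ph m i)
    (fun x => normSq (D.mo I x) * min 1 (D.t i x / m))
    fun x => (D.q (D.a i) x : ℂ) * D.mo I x := by
  have e0 := D.e0 i
  have m1 : (0 : ℝ) < m := Nat.cast_pos.2 m0
  have k : OnK M D.O fun e z => ContDiffAt ℝ ∞ (fun y => D.ph m i (e.symm y)) z ∧ ∀ v,
      nq (D.A (D.ε i) (D.a i) e z) v + m * nq (D.G i e z) v ≤ nq (M.hs (D.ph m i) e z +
        M.ric D.H e z + ((1 + 2 * m) * D.ε i) • D.H e z) v := fun e he z hz ho => by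
    obtain ⟨u1, u2⟩ := D.su e he z hz ho
    have f1 : ContDiffAt ℝ ∞ (fun y => D.f (e.symm y)) z := D.sf e he z hz ho
    have a1 : ContDiffAt ℝ ∞ (fun y => D.W (D.a i) (e.symm y)) z := D.sW (D.sa i).1 e he z hz
    have b1 : ContDiffAt ℝ ∞ (fun y => D.W (D.b i) (e.symm y)) z := D.sW (D.sb i).1 e he z hz
    have c1 := contDiffAt_const.mul (b1.add u1) (f := fun _ => (m : ℝ))
    refine ⟨(f1.add (a1.add u1)).add c1, fun v => ?_⟩
    have h1 := lw_add (f1.add (a1.add u1)) c1 v
    rw [lw_add f1 (a1.add u1), lw_add a1 u1, mul_rule _ (b1.add u1), lw_add b1 u1, u2] at h1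
    have h2 := DUA.nq0 (D.hf e he z hz ho) v
    change nq (M.hs (D.ph m i) e z) v = nq (M.hs D.f e z) v + (nq (M.hs (D.W (D.a i)) e z) v + _) +
      m * (nq (M.hs (D.W (D.b i)) e z) v + _) at h1
    simp only [G, A, Pi.add_apply, Pi.smul_apply, q_add, DUA.nq_sm, h1] at h2 ⊢
    linarith
  have a0 := fun e he z hz v => DUA.nq0 (D.Aa i e he z hz) v
  have g0 := fun e he z hz v =>
    mul_nonneg m1.le (DUA.nq0 ((D.kG i).pos e he z hz).posSemidef v)
  refine ⟨by positivity, fun e he z hz ho => (k e he z hz ho).1, fun e he z hz ho =>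
    (cd_ofReal (D.sq (D.sa i).1 e he z hz)).mul (BHOL.smooth (D.hmo I e he z hz ho)),
    ((continuous_normSq.comp_continuousOn (D.ch (D.hmo I))).mul (continuous_const.min
      ((D.st i).1.continuous.div_const _)).continuousOn).aemeasurable D.cmp.1.measurableSet,
    fun x _ => mul_nonneg (normSq_nonneg _) (le_min zero_le_one (div_nonneg ((D.st i).2.1 x) m1.le)),
    fun e he z hz ho => psd (((hess_herm (k e he z hz ho).1).add
      (((mHES n M).2.2.2.2.2.2.2.2.1 _ D.kae.toMet).herm e he z hz)).add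
        (herm_rsmul (D.kae.herm e he z hz) _)) fun v =>
      (add_nonneg (a0 e he z hz v) (g0 e he z hz v)).trans ((k e he z hz ho).2 v),
    fun e he z hz ho v => ?_, ne_top_of_le_ne_top D.fin
      (setLIntegral_mono' D.cmp.1.measurableSet fun x hx => ENNReal.ofReal_le_ofReal ?_)⟩
  · refine (dbv_mul (D.hmo I e he z hz ho) (D.sq (D.sa i).1 e he z hz) v).trans_le ?_
    rw [mul_assoc]
    refine mul_le_mul_of_nonneg_left ?_ (normSq_nonneg _)
    have h1 := (le_add_of_nonneg_left (mul_nonneg (sub_nonneg.2 (D.q01 _).2)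
      (D.l0 e0.le e he z hz ho v))).trans (D.low (D.sa i).1 (D.sa i).2.2 e he z hz ho v)
    have h2 := (k e he z hz ho).2 v
    have h3 := a0 e he z hz v
    have h4 := g0 e he z hz v
    rw [min_mul_of_nonneg _ _ ((add_nonneg h3 h4).trans h2), one_mul]
    refine le_min (h1.trans ((le_add_of_nonneg_right h4).trans h2)) (h1.trans
      (((D.st i).2.2 e he z hz v).trans (le_of_eq_of_le ?_ (mul_le_mul_of_nonneg_left
        ((le_add_of_nonneg_left h3).trans h2) (div_nonneg ((D.st i).2.1 _) m1.le)))))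
    field_simp
  · have p := pow_pos (one_pos.trans_le (D.pos x hx).2) m
    have h1 : normSq ((D.q (D.a i) x : ℂ) * D.mo I x) ≤ sn D.w x ^ m := by
      rw [normSq_mul, normSq_ofReal, ← D.smo]
      exact (mul_le_of_le_one_left (normSq_nonneg _) (mul_le_one₀ (D.q01 x).2 (D.q01 x).1
        (D.q01 x).2)).trans (Finset.single_le_sum (f := fun I => normSq (D.mo I x))
          (fun _ _ => normSq_nonneg _) (Finset.mem_univ I))
    refine (mul_le_mul h1 (D.up m i hx) (Real.exp_pos _).le p.le).trans_eq ?_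
    rw [mul_inv_cancel_left₀ p.ne']

theorem app {η : ℝ} (η0 : 0 < η) : ∃ (m : ℕ) (F : (Fin m → ι) → M.X → ℂ), (∀ I, HoK M D.O (F I)) ∧
    ∑ I, Jo M D.H D.O (fun x => normSq (D.ql x * D.mo I x - F I x) *
      ((sn D.w x ^ m)⁻¹ * D.la x)) ≤ ENNReal.ofReal η := by
  have hO := D.cmp.1.measurableSet
  obtain ⟨C, hC⟩ := D.mass
  obtain ⟨m, m0, hm⟩ := err (μ := (M.mu D.H).restrict D.O) ((D.co D.sf).neg.rexp.aemeasurable hO)
    (fun i => (((mINV n M _ D.kae.toMet).1 _ (D.kG i).toTen).2.2.2.1.continuous.div_const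
      _).aemeasurable) (fun _ => (Real.exp_pos _).le) (fun i => (D.st i).2.1) D.fin hC D.lowd η0
  have hε : Tendsto (fun i => (1 + 2 * (m : ℝ)) * D.ε i) atTop (𝓝 0) := by
    simpa using D.el.const_mul (1 + 2 * (m : ℝ))
  choose F hF hI using fun I : Fin m → ι => khv D.kae D.cmp (fun i => D.dat i m0 I) hε (D.lb m)
    (D.ch (D.hmo I)).norm (fun i x _ => by
      rw [norm_mul, norm_real, Real.norm_of_nonneg (D.q01 x).1]
      exact mul_le_of_le_one_left (norm_nonneg _) (D.q01 x).2)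
    fun x hx => ((continuous_ofReal.tendsto _).comp (D.qlim hx)).mul_const _
  refine ⟨m, F, hF, (Finset.sum_le_sum fun I _ => le_trans (setLIntegral_mono' hO fun x hx => ?_)
    (hI I)).trans ((sli _).trans (liminf_le_of_frequently_le' (hm.mono fun i hi =>
      le_trans ?_ hi).frequently))⟩
  · rw [ENNReal.ofReal_mul (normSq_nonneg _)]
    exact mul_le_mul_right (D.ld m hx) _
  · refine (lintegral_finset_sum' _ fun I _ => ((D.dat i m0 I).mb.mul
      ((D.co (D.dat i m0 I).sf).neg.rexp.aemeasurable hO)).ennreal_ofReal).ge.trans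
      (setLIntegral_mono' hO fun x hx => ?_)
    have b0 := fun I => (D.dat i m0 I).b0 x hx
    have p := pow_pos (one_pos.trans_le (D.pos x hx).2) m
    simp only [Pi.mul_apply, Pi.neg_apply]
    rw [← ENNReal.ofReal_sum_of_nonneg fun I _ => mul_nonneg (b0 I) (Real.exp_pos _).le,
      ← Finset.sum_mul, ← Finset.sum_mul, D.smo]
    refine ENNReal.ofReal_le_ofReal ((mul_le_mul_of_nonneg_left (D.up m i hx) (mul_nonneg p.le
      (le_min zero_le_one (div_nonneg ((D.st i).2.1 x) m.cast_nonneg)))).trans_eq ?_)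
    field_simp

theorem cl : ContinuousOn D.la D.O ∧ ContinuousOn (sn D.w) D.O :=
  ⟨((D.co D.sf).add (((D.sS.continuous.add continuous_const).log fun y =>
    (add_pos_of_nonneg_of_pos (D.S0 y) one_pos).ne').continuousOn.add D.cu)).neg.rexp,
    continuousOn_finset_sum _ fun i _ => continuous_normSq.comp_continuousOn (D.ch (D.hw i))⟩

theorem mq : AEMeasurable (fun x => (D.ql x : ℂ)) ((M.mu D.H).restrict D.O) :=
  measurable_ofReal.comp_aemeasurable (aemeasurable_of_tendsto_metrizable_ae atTop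
    (fun i => (D.sq (D.sa i).1).continuous.aemeasurable)
    ((ae_restrict_mem D.cmp.1.measurableSet).mono fun _ hx => D.qlim hx))

theorem wt (m : ℕ) : ∃ C : ℝ, 0 ≤ C ∧ ∀ x ∈ D.O,
    (D.S x / sn D.w x) ^ (m + 1) * Real.exp (-D.f x) ≤ C * ((sn D.w x ^ m)⁻¹ * D.la x) ∧
    D.la x ≤ Real.exp (-D.f x) := by
  obtain ⟨C, C0, hC⟩ := D.sS.exists_bound
  refine ⟨C ^ m * (C + 1), by positivity, fun x hx => ?_⟩
  obtain ⟨s0, s1⟩ := D.pos x hx
  have s2 := one_pos.trans_le s1
  have s3 : D.S x ≤ C := (le_abs_self _).trans (hC x)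
  have e : D.la x = Real.exp (-D.f x) * (D.S x / sn D.w x / (D.S x + 1)) := by
    rw [la, u, l, neg_add, Real.exp_add, neg_one_mul, ← sub_eq_add_neg, neg_add, neg_sub,
      Real.exp_add, Real.exp_sub, Real.exp_neg (Real.log _), Real.exp_log s0, Real.exp_log s2,
      Real.exp_log (by positivity)]
    ring
  have p := Real.exp_pos (-D.f x)
  rw [e]
  refine ⟨le_of_eq_of_le (b := D.S x ^ m * (D.S x + 1) * ((sn D.w x ^ m)⁻¹ *
    (Real.exp (-D.f x) * (D.S x / sn D.w x / (D.S x + 1))))) ?_ (by gcongr),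
    mul_le_of_le_one_right p.le ((div_le_one (by positivity)).2
      ((div_le_self s0.le s1).trans (lt_add_one _).le))⟩
  rw [pow_succ, div_pow]
  field_simp

theorem l2 {m : ℕ} (I : Fin m → ι) {F : M.X → ℂ} (h : Jo M D.H D.O (fun x =>
    normSq (D.ql x * D.mo I x - F x) * ((sn D.w x ^ m)⁻¹ * D.la x)) ≠ ⊤) : Jo M D.H D.O
      (fun x => normSq (F x) * ((D.S x / sn D.w x) ^ (m + 1) * Real.exp (-D.f x))) ≠ ⊤ := by
  obtain ⟨C, C0, hC⟩ := D.wt m
  have hO := D.cmp.1.measurableSet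
  refine ne_top_of_le_ne_top (ENNReal.mul_ne_top (ENNReal.ofReal_ne_top (r := 2 * C))
    (ENNReal.add_ne_top.2 ⟨D.fin, h⟩)) (le_trans (setLIntegral_mono' hO fun x hx => ?_)
      ((lintegral_const_mul' _ _ ENNReal.ofReal_ne_top).trans (congrArg _ (lintegral_add_left'
        ((D.co D.sf).neg.rexp.aemeasurable hO).ennreal_ofReal _))).le)
  have p := pow_pos (one_pos.trans_le (D.pos x hx).2) m
  have l0 : 0 ≤ (sn D.w x ^ m)⁻¹ * D.la x := mul_nonneg (inv_pos.2 p).le (Real.exp_pos _).le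
  have s0 := add_pos_of_pos_of_nonneg (D.pos x hx).1 (D.L0 hx)
  have q0 : 0 ≤ D.ql x := div_nonneg (D.L0 hx) s0.le
  have q1 : D.ql x ≤ 1 := (div_le_one s0).2 (le_add_of_nonneg_left (D.S0 x))
  have h1 : normSq ((D.ql x : ℂ) * D.mo I x) ≤ sn D.w x ^ m := by
    rw [normSq_mul, normSq_ofReal, ← D.smo]
    exact (mul_le_of_le_one_left (normSq_nonneg _) (mul_le_one₀ q1 q0 q1)).trans
      (Finset.single_le_sum (f := fun I => normSq (D.mo I x))
        (fun _ _ => normSq_nonneg _) (Finset.mem_univ I))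
  have h2 := mul_le_mul_of_nonneg_right h1 l0
  rw [mul_inv_cancel_left₀ p.ne'] at h2
  have h3 : normSq (F x) ≤ 2 * (normSq ((D.ql x : ℂ) * D.mo I x) +
      normSq (D.ql x * D.mo I x - F x)) := by
    generalize (D.ql x : ℂ) * D.mo I x = a
    simp only [normSq_apply, sub_re, sub_im]
    nlinarith [sq_nonneg (2 * a.re - (F x).re), sq_nonneg (2 * a.im - (F x).im)]
  simp only [Pi.neg_apply]
  rw [← ENNReal.ofReal_add (Real.exp_pos _).le (mul_nonneg (normSq_nonneg _) l0),
    ← ENNReal.ofReal_mul (by positivity)]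
  refine ENNReal.ofReal_le_ofReal ((mul_le_mul h3 (hC x hx).1 (mul_nonneg (pow_nonneg
    (div_nonneg (D.S0 x) (zero_le_one.trans (D.pos x hx).2)) _) (Real.exp_pos _).le)
    ((normSq_nonneg _).trans h3)).trans ?_)
  nlinarith [mul_le_mul_of_nonneg_left (h2.trans (hC x hx).2) C0]

/-- The limit is a function of the quotients. -/
theorem main (Y : Type) (Z : M.X → Y) (hZ : ∀ (F : M.X → ℂ) (m : ℕ), HoK M D.O F →
    Jo M D.H D.O (fun x => normSq (F x) * ((D.S x / sn D.w x) ^ m * Real.exp (-D.f x))) ≠ ⊤ →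
    ∃ g : Y → ℂ, ∀ᵐ x ∂M.mu D.H, F x = g (Z x)) :
    ∃ g : Y → ℝ, ∀ᵐ x ∂M.mu D.H, D.L x = g (Z x) * D.S x := by
  have hO := D.cmp.1.measurableSet
  choose m F hF hI using fun j : ℕ => D.app (η := (1 / 2) ^ j) (by positivity)
  choose g hg using fun j I => hZ _ _ (hF j I) (D.l2 I (ne_top_of_le_ne_top ENNReal.ofReal_ne_top
    ((Finset.single_le_sum (fun _ _ => zero_le) (Finset.mem_univ I)).trans (hI j))))
  choose w hw using fun i => hZ _ 1 (D.hw i) (by
    obtain ⟨C, C0, hC⟩ := D.sS.exists_bound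
    refine ne_top_of_le_ne_top (ENNReal.mul_ne_top (ENNReal.ofReal_ne_top (r := C)) D.fin)
      (le_trans (setLIntegral_mono' hO fun x hx => ?_)
        (lintegral_const_mul' _ _ ENNReal.ofReal_ne_top).le)
    have p := one_pos.trans_le (D.pos x hx).2
    beta_reduce
    rw [← ENNReal.ofReal_mul C0.le, ← mul_assoc, pow_one]
    refine ENNReal.ofReal_le_ofReal (mul_le_mul_of_nonneg_right (le_trans ?_
      ((le_abs_self _).trans (hC x))) (Real.exp_pos _).le)
    refine (mul_le_mul_of_nonneg_right (Finset.single_le_sum (f := fun i => normSq (D.w i x))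
      (fun _ _ => normSq_nonneg _) (Finset.mem_univ i)) (div_nonneg (D.S0 x) p.le)).trans_eq ?_
    exact mul_div_cancel₀ _ p.ne')
  have c0 := fun j I => (D.ch (D.hmo (m := m j) I)).aemeasurable (μ := M.mu D.H) hO
  have c1 := fun j I => (D.ch (hF j I)).aemeasurable (μ := M.mu D.H) hO
  have c2 := fun j => (D.cl.2.aemeasurable (μ := M.mu D.H) hO).pow_const (m j)
  have c3 := D.cl.1.aemeasurable (μ := M.mu D.H) hO
  have k := cnv (μ := (M.mu D.H).restrict D.O) (γ := fun x => D.ql x) (l := D.la)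
    (g := fun j x => (∑ I, star (D.mo I x) * F j I x) / (sn D.w x ^ m j : ℝ))
    (fun _ => Real.exp_pos _) (fun j => (continuous_normSq.measurable.comp_aemeasurable
      (D.mq.sub ((Finset.aemeasurable_fun_sum _ fun I _ =>
        (continuous_star.measurable.comp_aemeasurable (c0 j I)).mul (c1 j I)).div
          (measurable_ofReal.comp_aemeasurable (c2 j))))).mul c3) fun j => by
      refine le_trans (le_trans (setLIntegral_mono' hO fun x hx => ?_) (lintegral_finset_sum' _
        fun I _ => ((continuous_normSq.measurable.comp_aemeasurable ((D.mq.mul (c0 j I)).sub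
          (c1 j I))).mul ((c2 j).inv.mul c3)).ennreal_ofReal).le) (hI j)
      have p := pow_pos (one_pos.trans_le (D.pos x hx).2) (m j)
      have l0 : 0 ≤ D.la x := (Real.exp_pos _).le
      simp only [Pi.mul_apply, Pi.sub_apply, Pi.inv_apply, Function.comp_apply]
      rw [← ENNReal.ofReal_sum_of_nonneg fun I _ =>
        mul_nonneg (normSq_nonneg _) (mul_nonneg (inv_pos.2 p).le l0)]
      simp only [← mul_assoc, ← Finset.sum_mul _ _ (D.la x)]
      exact ENNReal.ofReal_le_ofReal (mul_le_mul_of_nonneg_right (cs _ _ _ (D.smo _ x) p) l0)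
  rw [Measure.restrict_eq_self_of_ae_mem D.ae] at k
  let r : Y → ℝ := fun y => (limUnder atTop fun j =>
    (∑ I : Fin (m j) → ι, star (∏ k, w (I k) y) * g j I y) / (sn w y ^ m j : ℝ)).re
  refine ⟨fun y => r y / (1 - r y), ?_⟩
  filter_upwards [k, D.ae, ae_all_iff.2 hw, ae_all_iff.2 fun j => ae_all_iff.2 (hg j)]
    with x h1 hx h2 h3
  have e : r (Z x) = D.ql x := by
    simp only [mo, sn, h2, h3] at h1
    exact congrArg re h1.limUnder_eq
  have s0 := add_pos_of_pos_of_nonneg (D.pos x hx).1 (D.L0 hx)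
  have s1 := (D.pos x hx).1
  rw [e, ql, one_sub_div s0.ne', add_sub_cancel_right]
  field_simp

end Dt

end Pool.Agent.Lib.K5F
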