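import Mathlib

/-! Project k5f: lemmas of measure theory. -/

open scoped Topology ENNReal
open Set MeasureTheory Complex Filter

noncomputable section

namespace Pool.Agent.Lib.K5F

variable {Y : Type} [MeasurableSpace Y] {μ : Measure Y}

theorem err {ρ : Y → ℝ} {g q : ℕ → Y → ℝ} {C η : ℝ} (mρ : AEMeasurable ρ μ)
    (mq : ∀ i, AEMeasurable (q i) μ) (ρ0 : ∀ y, 0 ≤ ρ y) (g0 : ∀ i y, 0 ≤ g i y)
    (fρ : ∫⁻ y, ENNReal.ofReal (ρ y) ∂μ ≠ ⊤)
    (hI : ∀ᶠ i in atTop, ∫⁻ y, ENNReal.ofReal (g i y * q i y) ∂μ ≤ ENNReal.ofReal C)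
    (hj : ∀ᵐ y ∂μ, ∃ j > (0 : ℝ), ∀ᶠ i in atTop, j * ρ y ≤ q i y) (η0 : 0 < η) :
    ∃ m : ℕ, 0 < m ∧ ∀ᶠ i in atTop,
      ∫⁻ y, ENNReal.ofReal (min 1 (g i y / m) * ρ y) ∂μ ≤ ENNReal.ofReal η := by
  set D : ℕ → Set Y := fun k => ⋃ l, {y | ((k : ℝ) + 1) * q (k + l) y < ρ y} with hD
  have m1 : ∀ k, AEMeasurable ((D k).indicator fun y => ENNReal.ofReal (ρ y)) μ := fun k =>
    mρ.ennreal_ofReal.indicator₀ (NullMeasurableSet.iUnion fun l =>
      nullMeasurableSet_lt ((mq _).const_mul _) mρ)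
  have t1 := tendsto_lintegral_of_dominated_convergence' (f := fun _ => 0) _ m1
    (fun k => ae_of_all _ fun y => indicator_le_self _ _ y) fρ (hj.mono fun y ⟨j, j0, h⟩ => by
      obtain ⟨a, ha⟩ := eventually_atTop.1 h
      refine tendsto_const_nhds.congr' ?_
      filter_upwards [eventually_ge_atTop a, tendsto_natCast_atTop_atTop.eventually_ge_atTop j⁻¹]
        with k h1 h2
      refine (indicator_of_notMem (fun h3 => ?_) _).symm
      obtain ⟨l, h4⟩ := mem_iUnion.1 h3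
      have h5 := mul_le_mul_of_nonneg_left (ha (k + l) (by omega))
        (show (0 : ℝ) ≤ k + 1 by positivity)
      have h6 := mul_le_mul_of_nonneg_right (show j⁻¹ ≤ (k : ℝ) + 1 by linarith)
        (mul_nonneg j0.le (ρ0 y))
      rw [inv_mul_cancel_left₀ j0.ne'] at h6
      exact (h6.trans h5).not_gt h4)
  rw [lintegral_zero] at t1
  obtain ⟨k, hk⟩ := (t1.eventually_le_const (ENNReal.ofReal_pos.2 (half_pos η0))).exists
  obtain ⟨m, m2, m0⟩ := (((tendsto_natCast_atTop_atTop (R := ℝ)).const_div_atTop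
    (C * (k + 1))).eventually_le_const (half_pos η0)).and (eventually_gt_atTop 0) |>.exists
  have p : (0 : ℝ) ≤ (k + 1) / m := by positivity
  refine ⟨m, m0, ?_⟩
  filter_upwards [hI, eventually_ge_atTop k] with i h1 h2
  refine le_trans (lintegral_mono fun y => ?_) ((lintegral_add_left' (m1 k) fun y =>
    ENNReal.ofReal (g i y * q i y) * ENNReal.ofReal ((k + 1) / m)).le.trans ?_)
  · by_cases h : y ∈ D k
    · rw [indicator_of_mem h]
      exact le_add_right (ENNReal.ofReal_le_ofReal (mul_le_of_le_one_left (ρ0 y) (min_le_left _ _)))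
    · obtain ⟨l, rfl⟩ := Nat.exists_eq_add_of_le h2
      have h3 : ρ y ≤ _ := not_lt.1 fun h' => h (mem_iUnion.2 ⟨l, h'⟩)
      rw [← ENNReal.ofReal_mul' p]
      refine le_add_left (ENNReal.ofReal_le_ofReal ((mul_le_mul (min_le_right _ _) h3 (ρ0 y)
        (div_nonneg (g0 _ y) m.cast_nonneg)).trans_eq (by ring)))
  · rw [lintegral_mul_const' _ _ ENNReal.ofReal_ne_top, ← add_halves η,
      ENNReal.ofReal_add (half_pos η0).le (half_pos η0).le]
    refine add_le_add hk ((mul_le_mul_left h1 _).trans ?_)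
    rw [← ENNReal.ofReal_mul' p, ← mul_div_assoc]
    exact ENNReal.ofReal_le_ofReal m2

theorem sli {κ : Type} [Fintype κ] (B : κ → ℕ → ℝ≥0∞) :
    ∑ I, liminf (B I) atTop ≤ liminf (fun i => ∑ I, B I i) atTop := by
  let _ : MeasurableSpace κ := ⊤
  have := lintegral_liminf_le (μ := Measure.count) (f := fun i I => B I i) (u := atTop)
    fun _ => measurable_from_top
  simpa only [lintegral_count, tsum_fintype] using this

theorem cs {κ : Type} [Fintype κ] (u F : κ → ℂ) (r : ℂ) {N : ℝ} (h : ∑ I, normSq (u I) = N)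
    (h0 : 0 < N) : normSq (r - (∑ I, star (u I) * F I) / N) ≤
      ∑ I, normSq (r * u I - F I) * N⁻¹ := by
  have e : r - (∑ I, star (u I) * F I) / N = (∑ I, star (u I) * (r * u I - F I)) / N := by
    have : (N : ℂ) ≠ 0 := ofReal_ne_zero.2 h0.ne'
    rw [eq_div_iff this, sub_mul, div_mul_cancel₀ _ this, ← h, ofReal_sum, Finset.mul_sum,
      ← Finset.sum_sub_distrib]
    exact Finset.sum_congr rfl fun I _ => by rw [normSq_eq_conj_mul_self, star_def]; ring
  have k := (pow_le_pow_left₀ (norm_nonneg _) (norm_sum_le Finset.univ fun I =>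
    star (u I) * (r * u I - F I)) 2)
  simp only [norm_mul, norm_star] at k
  have k2 := k.trans (Finset.sum_mul_sq_le_sq_mul_sq _ _ _)
  simp only [Complex.sq_norm, h] at k2
  rw [e, normSq_div, normSq_ofReal, ← Finset.sum_mul, div_le_iff₀ (mul_pos h0 h0)]
  exact k2.trans_eq (by field_simp)

theorem cnv {g : ℕ → Y → ℂ} {γ : Y → ℂ} {l : Y → ℝ} (l0 : ∀ y, 0 < l y)
    (m : ∀ j, AEMeasurable (fun y => normSq (γ y - g j y) * l y) μ)
    (h : ∀ j, ∫⁻ y, ENNReal.ofReal (normSq (γ y - g j y) * l y) ∂μ ≤ ENNReal.ofReal ((1 / 2) ^ j)) :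
    ∀ᵐ y ∂μ, Tendsto (fun j => g j y) atTop (𝓝 (γ y)) := by
  have k : ∫⁻ y, ∑' j, ENNReal.ofReal (normSq (γ y - g j y) * l y) ∂μ ≠ ⊤ := by
    rw [lintegral_tsum fun j => (m j).ennreal_ofReal]
    refine ne_top_of_le_ne_top ?_ (ENNReal.tsum_le_tsum h)
    rw [← ENNReal.ofReal_tsum_of_nonneg (fun j => by positivity) summable_geometric_two]
    exact ENNReal.ofReal_ne_top
  filter_upwards [ae_lt_top' (AEMeasurable.ennreal_tsum fun j => (m j).ennreal_ofReal) k] with y hy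
  have h1 := (ENNReal.tendsto_toReal ENNReal.zero_ne_top).comp
    (ENNReal.tendsto_atTop_zero_of_tsum_ne_top hy.ne)
  have h2 := (h1.div_const (l y)).sqrt
  rw [tendsto_iff_norm_sub_tendsto_zero]
  simp only [ENNReal.toReal_zero, zero_div, Real.sqrt_zero] at h2
  refine h2.congr fun j => ?_
  rw [Function.comp_apply, ENNReal.toReal_ofReal (mul_nonneg (normSq_nonneg _) (l0 y).le),
    mul_div_cancel_right₀ _ (l0 y).ne', normSq_eq_norm_sq, Real.sqrt_sq (norm_nonneg _),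
    norm_sub_rev]

end Pool.Agent.Lib.K5F
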