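import Pool.Agent.Lib.KH.All

/-! Project k5f: the theorem of Hörmander for a convergent sequence of data. -/

open scoped Classical Topology ContDiff ComplexOrder Matrix ENNReal
open Set MeasureTheory Complex Metric Filter

noncomputable section

namespace Pool.Agent.Lib.K5F

open Pool.Agent.Lib.SV (E)
open Pool.Agent.Lib.HS32 Pool.Agent.Lib.HS32.Mf Pool.Agent.Lib.KH

variable {n : ℕ} {M : Mf n} [M.Cpt] {H : M.Fam (Mat n)} {O K : Set M.X} {ε : ℕ → ℝ}
  {f β : ℕ → M.X → ℝ} {Γ : ℕ → M.X → ℂ} {γ : M.X → ℂ} {b : M.X → ℝ} {V : M.Fam (E n)}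

theorem dct (hH : M.Met H) (hO : IsOpen O) (hK : IsCompact K) (hKO : K ⊆ O)
    (hΓ : ∀ i, ContinuousOn (Γ i) O) (hb : ContinuousOn b O) (hl : ∀ i, ∀ x ∈ O, ‖Γ i x‖ ≤ b x)
    (hγ : ∀ x ∈ O, Tendsto (fun i => Γ i x) atTop (𝓝 (γ x))) {g : M.X → ℂ} (hg : Continuous g)
    (h0 : ∀ x ∉ K, g x = 0) :
    Integrable (fun x => g x * star (γ x)) ((M.mu H).restrict O) ∧
    Tendsto (fun i => ∫ x in O, g x * star (Γ i x) ∂M.mu H) atTop
      (𝓝 (∫ x in O, g x * star (γ x) ∂M.mu H)) := by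
  have := (mMU n M H hH).2.1
  have m := fun i => (hg.continuousOn.mul (hΓ i).star).aestronglyMeasurable
    (μ := M.mu H) hO.measurableSet
  have i1 : IntegrableOn (fun x => ‖g x‖ * b x) O (M.mu H) :=
    (ContinuousOn.integrableOn_compact hK (hg.norm.continuousOn.mul
      (hb.mono hKO))).of_forall_sdiff_eq_zero hO.measurableSet fun x hx => by simp [h0 x hx.2]
  have bd : ∀ i, ∀ᵐ x ∂(M.mu H).restrict O, ‖g x * star (Γ i x)‖ ≤ ‖g x‖ * b x := fun i =>
    (ae_restrict_mem hO.measurableSet).mono fun x hx => by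
      rw [norm_mul, norm_star]
      exact mul_le_mul_of_nonneg_left (hl i x hx) (norm_nonneg _)
  have lm : ∀ᵐ x ∂(M.mu H).restrict O, Tendsto (fun i => g x * star (Γ i x)) atTop
      (𝓝 (g x * star (γ x))) :=
    (ae_restrict_mem hO.measurableSet).mono fun x hx => (hγ x hx).star.const_mul _
  refine ⟨i1.mono' (aestronglyMeasurable_of_tendsto_ae atTop m lm) ?_,
    tendsto_integral_of_dominated_convergence _ m i1 bd lm⟩
  filter_upwards [ae_all_iff.2 bd, lm] with x h1 h2 using le_of_tendsto' h2.norm h1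

theorem lim (hH : M.Kae H) (hO : Cmp M H O) (hK : IsCompact K) (hKO : K ⊆ O)
    (hD : ∀ i, Dat M H O (ε i) (f i) (β i) (Γ i)) (hε : Tendsto ε atTop (𝓝 0)) (hL : Lb M O f)
    (hV : Tf M K V) {y : ℂ}
    (hy : Tendsto (fun i => ∫ x in O, dg M H V x * star (Γ i x) ∂M.mu H) atTop (𝓝 y))
    (hb : liminf (fun i => Jo M H O fun x => β i x * Real.exp (-f i x)) atTop ≠ ⊤) :
    ENNReal.ofReal (normSq y) ≤
      liminf (fun i => Jo M H O fun x => β i x * Real.exp (-f i x)) atTop *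
        ∫⁻ x in O, ENNReal.ofReal (normSq (dg M H V x)) * (lden f x)⁻¹ ∂M.mu H := by
  obtain ⟨A, -, hA⟩ := bDUA (bCOR bQLN bLEI) bKIT bCHG n M H O K hH hO hK hKO
  obtain ⟨k1, -, k3, -, k5, -⟩ := bKIT n M H O hH.toMet hO.1
  obtain ⟨d1, d2, -⟩ := k3 K V hK hV
  obtain ⟨C, hC⟩ := k5 f hL K hK hKO
  obtain ⟨-, fin, -, -, int, -⟩ := mMU n M H hH.toMet
  obtain ⟨D, -, hd⟩ := d1.exists_bound
  have q0 : ∀ x, 0 ≤ nq (M.ev H x) (M.ev V x) := fun x =>
    (Complex.nonneg_iff.1 ((hH.toMet.ev_pos x).posSemidef.dotProduct_mulVec_nonneg _)).1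
  set Q := ∫ x, nq (M.ev H x) (M.ev V x) * Real.exp C ∂M.mu H with hQ
  have q1 : ∀ i, ∫ x, nq (M.ev H x) (M.ev V x) * Real.exp (f i x) ∂M.mu H ≤ Q := fun i => by
    refine integral_mono_of_nonneg (.of_forall fun x => mul_nonneg (q0 x) (Real.exp_pos _).le)
      ((int ℝ _ (LIM.nq_c hH.toTen hV.vec).continuous).mul_const _) (.of_forall fun x => ?_)
    by_cases hx : x ∈ K
    · exact mul_le_mul_of_nonneg_left (Real.exp_le_exp.2 (hC x hx i)) (q0 x)
    · have : M.ev V x = 0 := AllOn.ch hV.supp x (by rwa [ch_symm])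
      simp [this, nq]
  set a : ℕ → ℝ≥0∞ := fun i => ∫⁻ x in O, ENNReal.ofReal (normSq (dg M H V x) * Real.exp (f i x))
    ∂M.mu H with ha
  set B : ℕ → ℝ≥0∞ := fun i => Jo M H O fun x => β i x * Real.exp (-f i x) with hB
  set δ : ℕ → ℝ≥0∞ := fun i => ENNReal.ofReal (ε i * |A| * Q + 1 / ((i : ℝ) + 1)) with hδ
  have δ0 : Tendsto δ atTop (𝓝 0) := by
    have := ENNReal.tendsto_ofReal
      (((hε.mul_const |A|).mul_const Q).add (tendsto_one_div_add_atTop_nhds_zero_nat (𝕜 := ℝ)))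
    simpa only [zero_mul, add_zero, ENNReal.ofReal_zero] using this
  have Q0 : 0 ≤ Q := integral_nonneg fun x => mul_nonneg (q0 x) (Real.exp_pos _).le
  have bd : ∀ i x, ENNReal.ofReal (normSq (dg M H V x) * Real.exp (f i x)) ≤
      ENNReal.ofReal (D ^ 2 * Real.exp C) := fun i x => by
    by_cases hx : x ∈ K
    · refine ENNReal.ofReal_le_ofReal (mul_le_mul ?_ (Real.exp_le_exp.2 (hC x hx i))
        (Real.exp_pos _).le (sq_nonneg _))
      rw [normSq_eq_norm_sq]
      exact pow_le_pow_left₀ (norm_nonneg _) (hd x) 2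
    · simp [d2 x hx]
  have a1 : limsup a atTop ≤
      ∫⁻ x in O, ENNReal.ofReal (normSq (dg M H V x)) * (lden f x)⁻¹ ∂M.mu H := by
    refine (LIM.fat ENNReal.ofReal_ne_top (fun i => ?_) bd).trans_eq (lintegral_congr fun x => ?_)
    · exact (((continuous_normSq.comp d1.continuous).continuousOn.mul
        (k1 ℝ _ (hD i).sf).1.rexp).aemeasurable hO.1.measurableSet).ennreal_ofReal
    · rw [lden, ENNReal.inv_liminf, ← ENNReal.limsup_const_mul_of_ne_top ENNReal.ofReal_ne_top]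
      refine congrArg (limsup · atTop) (funext fun i => ?_)
      rw [ENNReal.ofReal_mul (normSq_nonneg _), ← ENNReal.ofReal_inv_of_pos (Real.exp_pos _),
        Real.exp_neg, inv_inv]
  have a2 : limsup a atTop ≠ ⊤ := by
    refine ne_top_of_le_ne_top (b := ENNReal.ofReal (D ^ 2 * Real.exp C) * M.mu H univ)
      (ENNReal.mul_ne_top ENNReal.ofReal_ne_top (measure_ne_top _ _))
      (limsup_le_of_le (h := .of_forall fun i => ?_))
    exact (setLIntegral_le_lintegral _ _).trans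
      ((lintegral_mono (bd i)).trans_eq (lintegral_const _))
  have key : ∀ i, ENNReal.ofReal (normSq (∫ x in O, dg M H V x * star (Γ i x) ∂M.mu H)) ≤
      ((a + δ) * B) i := fun i => by
    have e0 := (hD i).e0
    have p : 0 < ε i * |A| * Q + 1 / ((i : ℝ) + 1) := by positivity
    rw [Pi.mul_apply, Pi.add_apply]
    by_cases h : B i = ⊤
    · rw [h, ENNReal.mul_top (fun k => (ENNReal.ofReal_pos.2 p).ne' (add_eq_zero.1 k).2)]
      exact le_top
    rw [setIntegral_eq_integral_of_forall_compl_eq_zero fun x hx => by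
      rw [d2 x fun k => hx (hKO k), zero_mul]]
    refine (ENNReal.ofReal_le_ofReal (hA _ _ _ _ _ (hD i) hV h)).trans ?_
    rw [ENNReal.ofReal_mul ENNReal.toReal_nonneg, ENNReal.ofReal_toReal h, mul_comm]
    refine mul_le_mul_left (ENNReal.ofReal_add_le.trans (add_le_add ?_ ?_)) _
    · refine (LIM.of_le _ fun x => mul_nonneg (normSq_nonneg _) (Real.exp_pos _).le).trans_eq
        (setLIntegral_eq_of_support_subset fun x hx => ?_).symm
      by_contra k
      exact hx (by simp [d2 x fun k' => k (hKO k')])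
    · refine ENNReal.ofReal_le_ofReal (le_add_of_le_of_nonneg (mul_le_mul
        (mul_le_mul_of_nonneg_left (le_abs_self A) e0) (q1 i) (integral_nonneg fun x =>
          mul_nonneg (q0 x) (Real.exp_pos _).le) (by positivity)) (by positivity))
  have l := ENNReal.limsup_add_of_right_tendsto_zero δ0 a
  refine ((ENNReal.tendsto_ofReal ((continuous_normSq.tendsto y).comp hy)).liminf_eq.ge.trans
    (liminf_le_liminf (.of_forall key))).trans
    ((ENNReal.liminf_mul_le (.inr hb) (.inl (l ▸ a2))).trans ?_)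
  rw [l, mul_comm]
  exact mul_le_mul_right a1 _

/-- The theorem for a convergent sequence. -/
theorem khv (hH : M.Kae H) (hO : Cmp M H O) (hD : ∀ i, Dat M H O (ε i) (f i) (β i) (Γ i))
    (hε : Tendsto ε atTop (𝓝 0)) (hL : Lb M O f) (cb : ContinuousOn b O)
    (hl : ∀ i, ∀ x ∈ O, ‖Γ i x‖ ≤ b x) (hγ : ∀ x ∈ O, Tendsto (fun i => Γ i x) atTop (𝓝 (γ x))) :
    ∃ F, HoK M O F ∧ ∫⁻ x in O, ENNReal.ofReal (normSq (γ x - F x)) * lden f x ∂M.mu H ≤
      liminf (fun i => Jo M H O fun x => β i x * Real.exp (-f i x)) atTop := by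
  set B := liminf (fun i => Jo M H O fun x => β i x * Real.exp (-f i x)) atTop with hB
  by_cases hBt : B = ⊤
  · exact ⟨fun _ => 0, fun _ _ _ _ _ => Eventually.of_forall fun _ => differentiableAt_const _,
      hBt ▸ le_top⟩
  have hOm : MeasurableSet O := hO.1.measurableSet
  obtain ⟨k1, -, k3, k4, k5, -⟩ := bKIT n M H O hH.toMet hO.1
  have : IsFiniteMeasure (M.mu H) := (mMU n M H hH.toMet).2.1
  have : SecondCountableTopology M.X := (mCOV n M).1
  have cΓ : ∀ i, ContinuousOn (Γ i) O := fun i => (k1 ℂ _ (hD i).sg).1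
  have cd : ∀ K V, IsCompact K → Tf M K V → Continuous (dg M H V) := fun K V hK hV =>
    ((mTR n M).2.2.2.1 ℂ _).1 (k3 K V hK hV).1
  have jΓ := fun K V hK hKO (hV : Tf M K V) =>
    dct hH.toMet hO.1 hK hKO cΓ cb hl hγ (cd K V hK hV) (k3 K V hK hV).2.1
  have iΓ := fun K V hK hKO hV => (jΓ K V hK hKO hV).1
  have lγ : LocallyIntegrableOn γ O (M.mu H) := fun x hx => by
    obtain ⟨t, ht, h⟩ := cb.locallyIntegrableOn (μ := M.mu H) hOm x hx
    have hle : (M.mu H).restrict (t ∩ O) ≤ (M.mu H).restrict O :=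
      Measure.restrict_mono inter_subset_right le_rfl
    refine ⟨t ∩ O, inter_mem ht self_mem_nhdsWithin, (h.mono_set inter_subset_left).mono'
      ((aestronglyMeasurable_of_tendsto_ae atTop (fun i => (cΓ i).aestronglyMeasurable hOm)
        ((ae_restrict_mem hOm).mono hγ)).mono_measure hle) (ae_mono hle ?_)⟩
    exact (ae_restrict_mem hOm).mono fun x hx => le_of_tendsto' (hγ x hx).norm fun i => hl i x hx
  let S := TOP.sub M O fun K K' V V' c h h' => ⟨(k4 K K' V V' c h h').1, (k4 K K' V V' c h h').2.1⟩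
  let T : S →ₗ[ℂ] M.X → ℂ :=
    { toFun := fun s => dg M H s.1
      map_add' := by
        rintro ⟨V, K, hK, hKO, hV⟩ ⟨V', K', hK', hKO', hV'⟩
        exact (k4 K K' V V' 0 hV hV').2.2.1
      map_smul' := by
        rintro c ⟨V, K, hK, hKO, hV⟩
        exact (k4 K K V V c hV hV).2.2.2 }
  let l : S →ₗ[ℂ] ℂ :=
    { toFun := fun s => ∫ x in O, T s x * star (γ x) ∂M.mu H
      map_add' := by
        intro s s'
        obtain ⟨K, hK, hKO, hV⟩ := s.2
        obtain ⟨K', hK', hKO', hV'⟩ := s'.2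
        rw [map_add]
        simp only [Pi.add_apply, add_mul]
        exact integral_add (iΓ K _ hK hKO hV) (iΓ K' _ hK' hKO' hV')
      map_smul' := by
        intro c s
        rw [map_smul]
        simp only [Pi.smul_apply, smul_eq_mul, mul_assoc, RingHom.id_apply]
        exact integral_const_mul _ _ }
  have ma : AEMeasurable (lden f) ((M.mu H).restrict O) :=
    TOP.lden_meas _ f fun i => (k1 ℝ (f i) (hD i).sf).1.aemeasurable hOm
  have c0 : ∀ C : ℝ, ENNReal.ofReal (Real.exp (-C)) ≠ 0 := fun C =>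
    (ENNReal.ofReal_pos.2 (Real.exp_pos _)).ne'
  obtain ⟨h, hm, hb, hs⟩ := bRIE M.X S ((M.mu H).restrict O) (lden f) T l B hBt ma
    ((ae_restrict_iff' hOm).2 (Eventually.of_forall fun x hx => by
      obtain ⟨C, hC⟩ := hL x hx
      exact ((pos_iff_ne_zero.2 (c0 C)).trans_le (TOP.lden_ge f x C hC.self_of_nhds)).ne'))
    (by
      intro s
      obtain ⟨K, hK, hKO, hV⟩ := s.2
      refine ⟨(cd K _ hK hV).aemeasurable, ?_, lim hH hO hK hKO hD hε hL hV
        (jΓ K _ hK hKO hV).2 hBt⟩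
      obtain ⟨C, hC⟩ := k5 f hL K hK hKO
      obtain ⟨D, hDd⟩ := (isCompact_univ.image_of_continuousOn
        (continuous_normSq.comp (cd K _ hK hV)).continuousOn).bddAbove
      refine ne_top_of_le_ne_top (b := ∫⁻ _ in O,
        ENNReal.ofReal D * (ENNReal.ofReal (Real.exp (-C)))⁻¹ ∂M.mu H) ?_ (lintegral_mono fun x => ?_)
      · rw [lintegral_const]
        exact ENNReal.mul_ne_top (ENNReal.mul_ne_top ENNReal.ofReal_ne_top
          (ENNReal.inv_ne_top.2 (c0 C))) (measure_ne_top _ _)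
      · by_cases hx : x ∈ K
        · exact mul_le_mul' (ENNReal.ofReal_le_ofReal (hDd ⟨x, mem_univ _, rfl⟩))
            (ENNReal.inv_le_inv.2 (TOP.lden_ge f x C (hC x hx)))
        · have e : T s x = 0 := (k3 K _ hK hV).2.1 x hx
          simp only [e, map_zero, ENNReal.ofReal_zero, zero_mul, zero_le])
  have lh : LocallyIntegrableOn h O (M.mu H) := by
    intro x hx
    obtain ⟨C, hC⟩ := hL x hx
    obtain ⟨U, hU, hUo, hxU⟩ := eventually_nhds_iff.1 hC
    refine ⟨U ∩ O, mem_nhdsWithin_of_mem_nhds ((hUo.inter hO.1).mem_nhds ⟨hxU, hx⟩), ?_⟩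
    have hle : (M.mu H).restrict (U ∩ O) ≤ (M.mu H).restrict O :=
      Measure.restrict_mono inter_subset_right le_rfl
    exact TOP.intg _ h (lden f) _ (c0 C) ENNReal.ofReal_ne_top (hm.mono_measure hle)
      ((ae_restrict_iff' (hUo.inter hO.1).measurableSet).2 (Eventually.of_forall fun y hy =>
        TOP.lden_ge f y C (hU y hy.1)))
      (ne_top_of_le_ne_top hBt ((lintegral_mono' hle le_rfl).trans hb))
  obtain ⟨F, hF, hFe⟩ := bWEY bWE0 bKIT n M H O (fun x => γ x - h x) hH.toMet hO.1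
    (lγ.sub lh) (by
      intro K V hK hKO hV
      obtain ⟨i1, e1⟩ := hs ⟨V, K, hK, hKO, hV⟩
      simp only [star_sub, mul_sub]
      exact (integral_sub (iΓ K V hK hKO hV) i1).trans (sub_eq_zero.2 e1))
  refine ⟨F, hF, le_trans (le_of_eq (lintegral_congr_ae (hFe.mono fun x hx => ?_))) hb⟩
  simp only [hx, sub_sub_cancel]

end Pool.Agent.Lib.K5F
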