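import Pool.Agent.Lib.K5F.Pi
import Pool.Agent.Lib.K5F.Err

/-! Project k5f: the mass estimate and the data of the equation. -/

open scoped Classical Topology ContDiff ComplexOrder Matrix ENNReal
open Set MeasureTheory Complex Metric Filter

noncomputable section

namespace Pool.Agent.Lib.K5F

open Pool.Agent.Lib.SV (E)
open Pool.Agent.Lib.HS32 Pool.Agent.Lib.HS32.Mf Pool.Agent.Lib.KH Pool.Agent.Lib.KH.MAX
  Pool.Agent.Lib.KB47

variable {n : ℕ} {M : Mf n}

theorem dq_re {H : M.Fam (Mat n)} (hH : M.Met H) (B : M.Fam (Mat n)) (x : M.X) :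
    M.dq H B x = (M.ev B x).det.re / (M.ev H x).det.re := by
  conv_lhs => rw [dq, ← herm_det (hH.ev_pos x).1, div_ofReal_re]

namespace Dt

variable {ι : Type} [Fintype ι] (D : Dt M ι) (i : ℕ)

/-- The shifted potential. -/
def b (x : M.X) : ℝ := D.a i x + Real.log (D.ε i)

/-- The metric. -/
def G : M.Fam (Mat n) := D.A (D.ε i) (D.b i) + D.ε i • D.H

/-- The trace. -/
def t : M.X → ℝ := M.tr (D.G i) (D.A (D.ε i) (D.a i))

theorem sb : M.Sm (D.b i) ∧ M.Le 0 (D.T + D.ε i • D.H + M.hs (D.b i)) := by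
  refine ⟨(D.sa i).1.add (sm_const _), (D.sa i).2.2.congr (fun _ _ _ _ => rfl) fun e he z hz => ?_⟩
  obtain ⟨h1, h2, -⟩ :=
    (mLAP n M _ _ (D.sa i).1 (sm_const (Real.log (D.ε i)))).1 (Real.log (D.ε i)) e he z hz
  rw [h1, add_zero] at h2
  exact congrArg (_ + ·) h2

theorem eb (x : M.X) : Real.exp (D.b i x) ≤ D.ε i := by
  rw [b, Real.exp_add, Real.exp_log (D.e0 i)]
  exact mul_le_of_le_one_left (D.e0 i).le (Real.exp_le_one_iff.2 ((D.sa i).2.1 x))

variable [M.Cpt]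

theorem Aa : M.All fun e z => (D.A (D.ε i) (D.a i) e z).PosSemidef :=
  D.A0 (D.e0 i).le (D.sa i).1 (D.sa i).2.2

theorem kG : M.Kae (D.G i) :=
  ⟨(D.cA (D.sb i).1).add (D.kae.toClo.smul _), fun e he z hz => by
    have := (pd_rsmul (D.kae.pos e he z hz) (D.e0 i)).add_posSemidef
      (D.A0 (D.e0 i).le (D.sb i).1 (D.sb i).2 e he z hz)
    rwa [add_comm] at this⟩

theorem st : M.Sm (D.t i) ∧ (∀ x, 0 ≤ D.t i x) ∧ M.All fun e z => ∀ v,
    nq (D.A (D.ε i) (D.a i) e z) v ≤ D.t i (e.symm z) * nq (D.G i e z) v := by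
  obtain ⟨h1, h2, -⟩ := (mINV n M _ (D.kG i).toMet).1 _ (D.cA (ε := D.ε i) (D.sa i).1).toTen
  refine ⟨h2, fun x => trace_inv_mul_nonneg ((D.kG i).toMet.ev_pos x) (AllOn.ch (D.Aa i) x),
    fun e he z hz v => ?_⟩
  rw [← q_smul]
  exact DUA.nq_le (HS76.le_tr_smul ((D.kG i).pos e he z hz) (D.Aa i e he z hz)
    (h1 e he z hz).ge) v

theorem mass : ∃ C : ℝ, ∀ᶠ i in atTop, ∫⁻ x in D.O,
    ENNReal.ofReal (D.t i x * (M.dq D.H (D.G i) x / D.ε i ^ D.p)) ∂M.mu D.H ≤ ENNReal.ofReal C := by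
  obtain ⟨C, hC⟩ := D.nu
  refine ⟨2 ^ n * (C * (3 / 2) ^ D.p),
    (D.el.eventually_le_const (show (0 : ℝ) < 2 / 3 by norm_num)).mono fun i hi => ?_⟩
  have e0 := D.e0 i
  have c1 := (D.clo.add (D.kae.toClo.smul (3 / 2 * D.ε i))).smul 2
  have c2 := c1.add ((mHES n M).1 _ (D.sW (D.sb i).1))
  have e : D.G i + D.A (D.ε i) (D.a i) = (2 : ℝ) • (D.T + (3 / 2 * D.ε i) • D.H) +
      M.hs (D.W (D.b i)) + M.hs (D.W (D.a i)) := by
    unfold G A
    module
  have k : ∀ x, D.t i x * M.dq D.H (D.G i) x ≤ M.dq D.H (D.G i + D.A (D.ε i) (D.a i)) x ∧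
      0 ≤ D.t i x * M.dq D.H (D.G i) x := fun x => by
    have p := (D.kG i).toMet.ev_pos x
    have h := HS76.det_add_ge p (AllOn.ch (D.Aa i) x)
    have h0 := pd_det_re (D.kae.toMet.ev_pos x)
    rw [dq_re D.kae.toMet, dq_re D.kae.toMet, ← mul_div_assoc]
    refine ⟨div_le_div_of_nonneg_right (le_trans ?_ h) h0.le,
      div_nonneg (mul_nonneg ((D.st i).2.1 x) (pd_det_re p).le) h0.le⟩
    rw [mul_comm]
    exact mul_le_mul_of_nonneg_left (le_add_of_nonneg_left zero_le_one) (pd_det_re p).le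
  have i1 := ((mMU n M D.H D.kae.toMet).2.2.2.2.1 ℝ _ ((mINV n M _ D.kae.toMet).1 _
    ((D.kG i).toTen.add (D.cA (ε := D.ε i) (D.sa i).1).toTen)).2.2.2.1.continuous).div_const
      (D.ε i ^ D.p)
  refine (setLIntegral_le_lintegral _ _).trans ((lintegral_mono fun x => ENNReal.ofReal_le_ofReal
    ?_).trans ((ofReal_integral_eq_lintegral_ofReal i1 (ae_of_all _ fun x => div_nonneg
      ((k x).2.trans (k x).1) (by positivity))).ge.trans (ENNReal.ofReal_le_ofReal ?_)))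
  · rw [← mul_div_assoc]
    exact div_le_div_of_nonneg_right (k x).1 (by positivity)
  · rw [integral_div, e, mCOH n M _ _ _ D.kae.toMet c2 (D.sW (D.sa i).1),
      mCOH n M _ _ _ D.kae.toMet c1 (D.sW (D.sb i).1), div_le_iff₀ (by positivity)]
    simp only [dq_smul]
    rw [integral_const_mul, mul_assoc, mul_assoc, ← mul_pow]
    exact mul_le_mul_of_nonneg_left (hC _ ⟨by positivity, by linarith⟩) (by positivity)

theorem lowd : ∀ᵐ x ∂(M.mu D.H).restrict D.O, ∃ j > (0 : ℝ), ∀ᶠ i in atTop,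
    j * Real.exp (-D.f x) ≤ M.dq D.H (D.G i) x / D.ε i ^ D.p := by
  filter_upwards [ae_restrict_of_ae D.rk, ae_restrict_mem D.cmp.1.measurableSet] with x ⟨j, j0, hj⟩ hx
  have s0 := (D.pos x hx).1
  refine ⟨(1 / 2) ^ n * (j * 2 ^ D.p) * Real.exp (D.f x), by positivity, ?_⟩
  filter_upwards [D.el.eventually_le_const one_half_pos, D.el.eventually_le_const (half_pos s0)]
    with i h1 h2
  have e0 := D.e0 i
  have ho : (M.ch x).symm (M.ch x x) ∈ D.O := by rwa [ch_symm]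
  have h3 := hj (2 * D.ε i) ⟨by positivity, by linarith⟩
  have p0 := D.psl _ (ch_mem x) _ (ch_tgt x) ho
  have pH := D.kae.toMet.ev_pos x
  have p1 : (M.ev (M.hs D.l + (2 * D.ε i) • D.H) x).PosDef := by
    have := (pd_rsmul pH (mul_pos two_pos e0)).add_posSemidef (psd (hess_herm p0.1) p0.2)
    rwa [add_comm] at this
  have h4 : D.q (D.b i) x ≤ 1 / 2 := by
    rw [q, div_le_iff₀ (D.den x)]
    linarith [D.eb i x, Real.exp_pos (D.b i x)]
  have h5 := HS76.le_det_of_le p1 ((D.kG i).toMet.ev_pos x).1 one_half_pos.le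
    (psd (((D.kG i).toMet.ev_pos x).1.sub (herm_rsmul p1.1 (1 / 2))) fun v => by
      have a1 := D.low (D.sb i).1 (D.sb i).2 _ (ch_mem x) _ (ch_tgt x) ho v
      have a2 := mul_le_mul_of_nonneg_right (show 1 / 2 ≤ 1 - D.q (D.b i) x by linarith)
        (D.l0 e0.le _ (ch_mem x) _ (ch_tgt x) ho v)
      rw [ch_symm] at a1
      have a3 := (a2.trans (le_add_of_nonneg_right (normSq_nonneg _))).trans a1
      have a4 := mul_nonneg e0.le (DUA.nq0 pH.posSemidef v)
      simp only [sub_eq_add_neg, ← neg_smul, ← ofReal_neg, q_smul, ev, G, Pi.add_apply,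
        Pi.smul_apply, q_add, DUA.nq_sm] at a3 a4 ⊢
      linarith)
  rw [Fintype.card_fin] at h5
  rw [mul_assoc, ← Real.exp_add, add_neg_cancel, Real.exp_zero, mul_one, le_div_iff₀ (by positivity),
    mul_assoc, mul_assoc, ← mul_pow, dq_re D.kae.toMet]
  refine (mul_le_mul_of_nonneg_left h3 (by positivity)).trans ?_
  rw [dq_re D.kae.toMet, ← mul_div_assoc]
  exact div_le_div_of_nonneg_right h5 (pd_det_re pH).le

end Dt

end Pool.Agent.Lib.K5F
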