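import Pool.Agent.Lib.K5F.KHV
import Pool.Agent.Lib.KB47.Loc
import Pool.Agent.Lib.HS76.Diag

/-! Project k5f: the data and the pointwise inequalities. -/

open scoped Classical Topology ContDiff ComplexOrder Matrix ENNReal
open Set MeasureTheory Complex Metric Filter

noncomputable section

namespace Pool.Agent.Lib.K5F

open Pool.Agent.Lib.SV (E)
open Pool.Agent.Lib.HS32 Pool.Agent.Lib.HS32.Mf Pool.Agent.Lib.KH Pool.Agent.Lib.KH.MAX
  Pool.Agent.Lib.KB47

variable {n : ℕ}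

theorem pi {u w : E n → ℝ} {z : E n} (hu : ContDiffAt ℝ ∞ u z) (hw : ContDiffAt ℝ ∞ w z)
    (u0 : 0 < u z) (w0 : 0 < w z) (v : E n) :
    u z / (w z + u z) * lw (fun x => Real.log (u x)) z v +
      (1 - u z / (w z + u z)) * lw (fun x => Real.log (w x)) z v +
      normSq (dw (fun x => u x / (w x + u x)) z v) ≤ lw (fun x => Real.log (w x + u x)) z v := by
  have s0 := add_pos w0 u0
  have h1 := (log_rule hu u0 v).2
  have h2 := (log_rule hw w0 v).2
  have h3 := (log_rule (hw.add hu) s0 v).2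
  have h4 := dw_comp (hasDerivAt_inv s0.ne') (hw.add hu) v
  simp only [div_eq_mul_inv]
  rw [dw_mul (w := fun x => (w x + u x)⁻¹) hu ((hw.add hu).inv s0.ne'), h4]
  rw [lw_add hw hu, dw_add hw hu] at h3
  rw [dw_add hw hu]
  generalize dw u z v = a, dw w z v = b, lw u z v = c, lw w z v = d,
    lw (fun x => Real.log (u x)) z v = c', lw (fun x => Real.log (w x)) z v = d',
    lw (fun x => Real.log (w x + u x)) z v = l, u z = s, w z = t at *
  have e1 : c' = (s * c - normSq a) / s ^ 2 := by rw [← h1]; field_simp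
  have e2 : d' = (t * d - normSq b) / t ^ 2 := by rw [← h2]; field_simp
  have e3 : l = ((t + s) * (d + c) - normSq (b + a)) / (t + s) ^ 2 := by rw [← h3]; field_simp
  have e4 : (s : ℂ) * ((-((t + s) ^ 2)⁻¹ : ℝ) * (b + a)) + ((t + s)⁻¹ : ℝ) * a =
      (((t + s) ^ 2)⁻¹ : ℝ) * (t * a - s * b) := by
    have : (t : ℂ) + s ≠ 0 := by exact_mod_cast s0.ne'
    push_cast
    field_simp
    ring
  have e5 : l = s * (t + s)⁻¹ * c' + (1 - s * (t + s)⁻¹) * d' +
      (s * t * (t + s) ^ 2)⁻¹ * normSq (t * a - s * b) := by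
    rw [e1, e2, e3]
    simp only [normSq_apply, add_re, add_im, sub_re, sub_im, re_ofReal_mul, im_ofReal_mul]
    field_simp
    ring
  rw [e4, e5, normSq_mul, normSq_ofReal, ← mul_inv]
  refine add_le_add le_rfl (mul_le_mul_of_nonneg_right (inv_anti₀ (by positivity) ?_)
    (normSq_nonneg _))
  exact mul_le_mul_of_nonneg_right (by nlinarith [mul_pos u0 w0]) (by positivity)

/-- The sum of the squared norms. -/
def sn {X ι : Type} [Fintype ι] (w : ι → X → ℂ) (x : X) : ℝ := ∑ i, normSq (w i x)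

/-- The data. -/
structure Dt (M : Mf n) (ι : Type) [Fintype ι] where
  H : M.Fam (Mat n)
  T : M.Fam (Mat n)
  O : Set M.X
  S : M.X → ℝ
  f : M.X → ℝ
  L : M.X → ℝ
  w : ι → M.X → ℂ
  a : ℕ → M.X → ℝ
  ε : ℕ → ℝ
  p : ℕ
  kae : M.Kae H
  clo : M.Clo T
  cmp : Cmp M H O
  ae : ∀ᵐ x ∂M.mu H, x ∈ O
  sS : M.Sm S
  S0 : ∀ x, 0 ≤ S x
  hw : ∀ i, HoK M O (w i)
  pos : ∀ x ∈ O, 0 < S x ∧ 1 ≤ sn w x
  al : OnK M O fun e z =>
    M.hs (fun x => Real.log (S x)) e z + T e z = M.hs (fun x => Real.log (sn w x)) e z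
  sf : SmK M O f
  hf : OnK M O fun e z => (M.hs f e z + M.ric H e z).PosSemidef
  fin : Jo M H O (fun x => Real.exp (-f x)) ≠ ⊤
  e0 : ∀ i, 0 < ε i
  el : Tendsto ε atTop (𝓝 0)
  sa : ∀ i, M.Sm (a i) ∧ (∀ x, a i x ≤ 0) ∧ M.Le 0 (T + ε i • H + M.hs (a i))
  lim : ∀ x ∈ O, Tendsto (fun i => Real.exp (a i x)) atTop (𝓝 (L x))
  nu : ∃ C : ℝ, ∀ s ∈ Ioc (0 : ℝ) 1, ∫ x, M.dq H (T + s • H) x ∂M.mu H ≤ C * s ^ p
  rk : ∀ᵐ x ∂M.mu H, ∃ j > (0 : ℝ), ∀ s ∈ Ioc (0 : ℝ) 1,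
    j * s ^ p ≤ M.dq H (M.hs (fun x => Real.log (sn w x)) + s • H) x

namespace Dt

variable {M : Mf n} {ι : Type} [Fintype ι] (D : Dt M ι)

/-- The regularised logarithm. -/
def W (a : M.X → ℝ) (x : M.X) : ℝ := Real.log (D.S x + Real.exp (a x))

/-- The quotient. -/
def q (a : M.X → ℝ) (x : M.X) : ℝ := Real.exp (a x) / (D.S x + Real.exp (a x))

/-- The form. -/
def A (ε : ℝ) (a : M.X → ℝ) : M.Fam (Mat n) := D.T + ε • D.H + M.hs (D.W a)

/-- The logarithm of the sum. -/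
def l (x : M.X) : ℝ := Real.log (sn D.w x)

variable {a : M.X → ℝ} {ε : ℝ}

theorem den (x : M.X) : 0 < D.S x + Real.exp (a x) :=
  add_pos_of_nonneg_of_pos (D.S0 x) (Real.exp_pos _)

theorem sW (ha : M.Sm a) : M.Sm (D.W a) := (D.sS.add ha.exp).log fun x => (D.den x).ne'

theorem sq (ha : M.Sm a) : M.Sm (D.q a) := ha.exp.div (D.sS.add ha.exp) fun x => (D.den x).ne'

theorem q01 (x : M.X) : 0 ≤ D.q a x ∧ D.q a x ≤ 1 :=
  ⟨div_nonneg (Real.exp_pos _).le (D.den x).le,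
    (div_le_one (D.den x)).2 (le_add_of_nonneg_left (D.S0 x))⟩

theorem cA (ha : M.Sm a) : M.Clo (D.A ε a) :=
  (D.clo.add (D.kae.toClo.smul ε)).add ((mHES n M).1 _ (D.sW ha))

theorem psl : OnK M D.O fun e z => Ps (fun y => D.l (e.symm y)) z := fun e he z hz ho => by
  have := (ps_lsq (fun i => D.hw i e he z hz ho) le_rfl
    (by rw [add_zero]; exact one_pos.trans_le (D.pos _ ho).2)).1
  simp only [add_zero] at this
  exact this

theorem low (ha : M.Sm a) (h : M.Le 0 (D.T + ε • D.H + M.hs a)) : OnK M D.O fun e z => ∀ v,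
    (1 - D.q a (e.symm z)) * nq (M.hs D.l e z + ε • D.H e z) v +
      normSq (dw (fun y => D.q a (e.symm y)) z v) ≤ nq (D.A ε a e z) v := fun e he z hz ho v => by
  have h1 := pi (u := fun y => Real.exp (a (e.symm y))) (w := fun y => D.S (e.symm y))
    (ha.exp e he z hz) (D.sS e he z hz) (Real.exp_pos _) (D.pos _ ho).1 v
  simp only [Real.log_exp] at h1
  have h2 := mul_nonneg (D.q01 (a := a) (e.symm z)).1 (DUA.nq0 (h e he z hz) v)
  have h3 : M.hs D.l e z = _ := (D.al e he z hz ho).symm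
  simp only [h3, A, Pi.add_apply, Pi.smul_apply, Pi.zero_apply, sub_zero, q_add] at h2 ⊢
  change D.q a (e.symm z) * nq (M.hs a e z) v + (1 - D.q a (e.symm z)) *
    nq (M.hs (fun x => Real.log (D.S x)) e z) v + normSq (dw (fun y => D.q a (e.symm y)) z v) ≤
      nq (M.hs (D.W a) e z) v at h1
  nlinarith

theorem l0 (hε : 0 ≤ ε) : OnK M D.O fun e z => ∀ v, 0 ≤ nq (M.hs D.l e z + ε • D.H e z) v :=
  fun e he z hz ho v => by
    rw [q_add]
    exact add_nonneg ((D.psl e he z hz ho).2 v)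
      (DUA.nq0 (psd_rsmul (D.kae.pos e he z hz).posSemidef hε) v)

theorem A0 [M.Cpt] (hε : 0 ≤ ε) (ha : M.Sm a) (h : M.Le 0 (D.T + ε • D.H + M.hs a)) :
    M.All fun e z => (D.A ε a e z).PosSemidef := fun e he z hz => by
  refine psd ((D.cA ha).herm e he z hz) fun v => ?_
  have := (mMU n M D.H D.kae.toMet).2.2.1
  have h1 : ∃ᶠ y in 𝓝 z, e.symm y ∈ D.O := by
    have := mem_closure_iff_frequently.1 (Measure.dense_of_ae D.ae (e.symm z))
    rwa [← e.symm.map_nhds_eq hz, frequently_map] at this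
  have h2 : Continuous fun B : Mat n => nq B v := by unfold nq; fun_prop
  refine ge_of_tendsto_of_frequently (h2.continuousAt.comp
    ((D.cA ha).sm e he z hz).continuousAt) ((h1.and_eventually
      (e.open_target.mem_nhds hz)).mono fun y hy => le_trans ?_ (D.low ha h e he y hy.2 hy.1 v))
  exact add_nonneg (mul_nonneg (sub_nonneg.2 (D.q01 _).2) (D.l0 hε e he y hy.2 hy.1 v))
    (normSq_nonneg _)

end Dt

end Pool.Agent.Lib.K5F
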